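import Mathlib
import Pool.Agent.Helper66.HK.Stmts

set_option autoImplicit false

/-!
Module WN of the project HK: window form of the noise bound.
-/

namespace Pool.Agent.Helper68.HK

open Finset
open Pool.Agent.Helper69.RK
open Pool.Agent.Helper66.HK

noncomputable section

lemma hs_mono {m n : ℕ} {η η' : ℝ} {Ω ζ : Type} [Fintype Ω] {μ : Ω → ℝ} {Z : Ω → ζ}
    {a x : Ω → Fin m → ℝ} {t : Ω → ℝ} (h : HS m n η μ Z a x t) (hη : η ≤ η') :
    HS m n η' μ Z a x t := by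
  have hn : (0 : ℝ) ≤ n := Nat.cast_nonneg n
  have h1 : η * n ≤ η' * n := mul_le_mul_of_nonneg_right hη hn
  refine ⟨h.nn, h.ms, h.ab, h.xb, h.tb, fun k hk => (h.st k hk).trans h1, ?_, h.h2.trans h1⟩
  have := h.h1
  have h2 : (1 - η') * (n : ℝ) ≤ (1 - η) * n := by linarith
  exact h2.trans this

/-- equality of entropies of functions which determine each other -/
lemma ch_eq (hE2 : ST_E2) {Ω α α' γ : Type} [Fintype Ω] {μ : Ω → ℝ} {f : Ω → α} {f' : Ω → α'}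
    {g : Ω → γ} (hμ : ∀ ω, 0 ≤ μ ω) (h1 : Dep μ (fun ω => (f' ω, g ω)) f)
    (h2 : Dep μ (fun ω => (f ω, g ω)) f') : CH μ f g = CH μ f' g :=
  le_antisymm (hE2.1 Ω α α' γ μ f f' g hμ h1) (hE2.1 Ω α' α γ μ f' f g hμ h2)

/-- equality of mutual informations of functions which determine each other -/
lemma mi_eq (hE2 : ST_E2) {Ω α α' β γ : Type} [Fintype Ω] {μ : Ω → ℝ} {f : Ω → α} {f' : Ω → α'}
    {h : Ω → β} {g : Ω → γ} (hμ : ∀ ω, 0 ≤ μ ω) (h1 : Dep μ (fun ω => (f' ω, g ω)) f)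
    (h2 : Dep μ (fun ω => (f ω, g ω)) f') : MI μ f h g = MI μ f' h g := by
  unfold MI
  rw [ch_eq hE2 hμ h1 h2]
  congr 1
  apply ch_eq hE2 hμ
  · intro ω ω' hω hω' he
    apply h1 ω ω' hω hω'
    simp only [Prod.mk.injEq] at he ⊢
    exact ⟨he.1, he.2.2⟩
  · intro ω ω' hω hω' he
    apply h2 ω ω' hω hω'
    simp only [Prod.mk.injEq] at he ⊢
    exact ⟨he.1, he.2.2⟩

lemma fr_cel {m : ℕ} {l : ℕ} {y y' : Fin m → ℝ} (h1 : cel l y = cel l y') (h2 : fr l y = fr l y') :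
    y = y' := by
  funext i
  have e1 := congrFun h1 i
  have e2 := congrFun h2 i
  unfold cel at e1
  unfold fr at e2
  have h3 := Int.floor_add_fract ((2 : ℝ) ^ l * y i)
  have h4 := Int.floor_add_fract ((2 : ℝ) ^ l * y' i)
  rw [e1, e2] at h3
  have h5 : (2 : ℝ) ^ l * y i = (2 : ℝ) ^ l * y' i := h3.symm.trans h4
  exact mul_left_cancel₀ (by positivity) h5

theorem st_WN (hE2 : ST_E2) (hZH : ST_ZH) (hZC : ST_ZC) : ST_WN := by
  intro m γ ν hNB ε κ hε hκ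
  obtain ⟨η1, hη1, n1, hn1⟩ := hNB ε hε
  refine ⟨η1 * κ / 4, by positivity, ⌈((n1 : ℝ) + 1 + 2 * m / η1) / κ⌉₊, ?_⟩
  intro n hn Ω ζ θ _ μ Z a x t Θ A hS l w hlw hw hMI hY
  set η : ℝ := η1 * κ / 4 with hη
  have hη0 : 0 < η := by positivity
  have hn' : ((n1 : ℝ) + 1 + 2 * m / η1) / κ ≤ n := (Nat.le_ceil _).trans (by exact_mod_cast hn)
  rw [div_le_iff₀ hκ] at hn'
  have hnw : (n1 : ℝ) + 1 + 2 * m / η1 ≤ w := by linarith [mul_comm (n : ℝ) κ]
  have hm0 : (0 : ℝ) ≤ 2 * m / η1 := by positivity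
  have hn1w : n1 ≤ w := by
    have : (n1 : ℝ) ≤ w := by linarith
    exact_mod_cast this
  have hw1 : 1 ≤ w := by
    have h0 : (0 : ℝ) ≤ n1 := Nat.cast_nonneg _
    have : (1 : ℝ) ≤ w := by linarith
    exact_mod_cast this
  have hw0 : (0 : ℝ) < w := by exact_mod_cast hw1
  have hm : 2 * (m : ℝ) ≤ η1 * w := by
    have h0 : (0 : ℝ) ≤ n1 := Nat.cast_nonneg _
    have : 2 * (m : ℝ) / η1 ≤ w := by linarith
    rw [div_le_iff₀ hη1] at this
    linarith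
  have hηn : η * n ≤ η1 * w / 4 := by
    have : η * n = η1 * (κ * n) / 4 := by rw [hη]; ring
    rw [this]
    have := mul_le_mul_of_nonneg_left hw hη1.le
    linarith
  have hηw : η * n / w ≤ η1 := by
    rw [div_le_iff₀ hw0]
    have : 0 ≤ η1 * w := by positivity
    linarith
  have hS' := hs_mono (hZH m n l w η Ω ζ μ Z a x t hS hlw hw1) hηw
  obtain ⟨z1, z2, z3, _⟩ := hZC m l w Ω ζ θ μ Z Θ a x t A hS.nn hS.ms
  -- the mutual information
  have hMI' : MI μ (fun ω => (fr l (a ω), fr l (x ω))) (fun ω => (Θ ω, A ω))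
      (fun ω => (t ω, xi l (a ω) (x ω), Z ω)) ≤ η1 * w := by
    have he : MI μ (fun ω => (fr l (a ω), fr l (x ω))) (fun ω => (Θ ω, A ω))
        (fun ω => (t ω, xi l (a ω) (x ω), Z ω)) =
        MI μ (fun ω => (a ω, x ω)) (fun ω => (Θ ω, A ω))
        (fun ω => (t ω, xi l (a ω) (x ω), Z ω)) := by
      apply mi_eq hE2 hS.nn
      · intro ω ω' _ _ he
        simp only [Prod.mk.injEq] at he ⊢
        exact ⟨by rw [he.1.1], by rw [he.1.2]⟩
      · intro ω ω' _ _ he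
        simp only [Prod.mk.injEq, xi] at he ⊢
        exact ⟨fr_cel he.2.2.1.1 he.1.1, fr_cel he.2.2.1.2 he.1.2⟩
    rw [he]
    have : 0 ≤ η1 * w := by positivity
    linarith
  -- the point
  have hY' : CH μ (fun ω => Yn w (t ω) (fr l (a ω)) (fr l (x ω)) (A ω))
      (fun ω => (Θ ω, t ω, xi l (a ω) (x ω), Z ω)) ≤
      CH μ (fun ω => cel w (fr l (x ω))) (fun ω => (xi l (a ω) (x ω), Z ω)) - (γ - η1) * w := by
    have e1 := (abs_le.1 z3).2
    have e2 := z2 n hlw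
    have e3 := hS.st l (by omega)
    rw [z1]
    linarith
  exact hn1 w hn1w Ω (((Fin m → ℤ) × (Fin m → ℤ)) × ζ) θ μ (fun ω => (xi l (a ω) (x ω), Z ω))
    (fun ω => fr l (a ω)) (fun ω => fr l (x ω)) t Θ A hS' hMI' hY'

end

end Pool.Agent.Helper68.HK
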